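import Mathlib

/-!
# Limit points of a function along generic dilates of a sparse sequence
-/

set_option autoImplicit false

namespace Pool.Agent.X108.GD

open Filter Topology Set

/-- a fixed open set -/
theorem generic_open {X : Type*} [TopologicalSpace X] (f : ℝ → X)
    (hf : ∀ᶠ x in atTop, ContinuousWithinAt f (Ici x) x) (l : ℕ → ℝ) (hpos : ∀ n, 0 < l n)
    (hlim : Tendsto l atTop atTop) (hrat : Tendsto (fun n => l (n + 1) / l n) atTop (𝓝 1))
    {V : Set X} (hV : IsOpen V) (hfr : ∃ᶠ x in atTop, f x ∈ V) :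
    ∀ᶠ t in residual ℝ, 0 < t → ∃ᶠ n in atTop, f (t * l n) ∈ V := by
  have key : ∀ N : ℕ, ∀ᶠ t in residual ℝ, 0 < t → ∃ n ≥ N, f (t * l n) ∈ V := by
    intro N
    set S : Set ℝ := {t | ∃ n ≥ N, f (t * l n) ∈ V} with hS
    have hres : Iio (0 : ℝ) ∪ interior S ∈ residual ℝ := by
      refine residual_of_dense_open (isOpen_Iio.union isOpen_interior) ?_
      rw [dense_iff_inter_open]
      intro W hW hWne
      by_cases hneg : (W ∩ Iio 0).Nonempty
      · obtain ⟨t, h1, h2⟩ := hneg
        exact ⟨t, h1, Or.inl h2⟩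
      · -- a subinterval of `(0, ∞)`
        obtain ⟨t1, ht1⟩ := hWne
        have ht10 : 0 ≤ t1 := by
          by_contra h
          exact hneg ⟨t1, ht1, not_le.1 h⟩
        obtain ⟨r, hr, hrW⟩ := Metric.isOpen_iff.1 hW t1 ht1
        have hab : Ioo (t1 + r / 4) (t1 + r / 2) ⊆ W := by
          intro y hy
          apply hrW
          rw [Metric.mem_ball, Real.dist_eq, abs_lt]
          constructor <;> linarith [hy.1, hy.2]
        obtain ⟨a, ha⟩ : ∃ a, a = t1 + r / 4 := ⟨_, rfl⟩
        obtain ⟨b, hb⟩ : ∃ b, b = t1 + r / 2 := ⟨_, rfl⟩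
        rw [← ha, ← hb] at hab
        have ha0 : 0 < a := by rw [ha]; positivity
        have hltab : a < b := by rw [ha, hb]; linarith
        -- from `n0` on the ratios are small
        have hone : (1 : ℝ) < b / a := (one_lt_div ha0).2 hltab
        obtain ⟨n0, hn0⟩ := eventually_atTop.1 (hrat.eventually (gt_mem_nhds hone))
        obtain ⟨n1, hn1⟩ : ∃ n1, n1 = max n0 N := ⟨_, rfl⟩
        have hcont := hfr.and_eventually (hf.and (eventually_gt_atTop (b * l n1)))
        obtain ⟨x, hxV, hxc, hxb⟩ := hcont.exists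
        have hx0 : 0 < x := lt_trans (mul_pos (ha0.trans hltab) (hpos _)) hxb
        -- the index: the last `n ≥ n1` with `b * l n < x`... choose the first `n ≥ n1` with `x < b * l (n+1)`
        have hex : ∃ m : ℕ, x < b * l (n1 + m) := by
          obtain ⟨m, hm⟩ := ((hlim.const_mul_atTop (ha0.trans hltab)).eventually_gt_atTop x).exists_forall_of_atTop
          exact ⟨m, hm (n1 + m) (Nat.le_add_left _ _)⟩
        classical
        obtain ⟨m, hm⟩ : ∃ m, m = Nat.find hex := ⟨_, rfl⟩
        have hm1 : x < b * l (n1 + m) := by rw [hm]; exact Nat.find_spec hex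
        have hm0 : m ≠ 0 := by
          rintro rfl
          rw [add_zero] at hm1
          linarith
        obtain ⟨j, rfl⟩ : ∃ j, m = j + 1 := ⟨m - 1, by omega⟩
        have hj : b * l (n1 + j) ≤ x := by
          have := Nat.find_min hex (m := j) (by omega)
          exact not_lt.1 this
        have hr1 := hn0 (n1 + j) (by omega)
        have hlj := hpos (n1 + j)
        have hlj1 := hpos (n1 + (j + 1))
        rw [div_lt_div_iff₀ hlj ha0] at hr1
        -- `x / l (n1 + j + 1) ∈ (a, b)`
        have hxl : x / l (n1 + (j + 1)) ∈ Ioo a b := by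
          constructor
          · rw [lt_div_iff₀ hlj1]
            have e : n1 + j + 1 = n1 + (j + 1) := by ring
            rw [e] at hr1
            linarith
          · rw [div_lt_iff₀ hlj1]
            exact hm1
        -- a right neighbourhood
        have hnb : ∀ᶠ y in 𝓝[≥] x, f y ∈ V := hxc.eventually (hV.mem_nhds hxV)
        rw [Filter.Eventually, mem_nhdsGE_iff_exists_Ico_subset] at hnb
        obtain ⟨u, hu, hsub⟩ := hnb
        have hu' : x < u := hu
        have hlt : x / l (n1 + (j + 1)) < min b (u / l (n1 + (j + 1))) :=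
          lt_min hxl.2 (div_lt_div_of_pos_right hu' hlj1)
        obtain ⟨t, ht1', ht2'⟩ := exists_between hlt
        refine ⟨t, hab ⟨hxl.1.trans ht1', ht2'.trans_le (min_le_left _ _)⟩, Or.inr ?_⟩
        rw [mem_interior]
        refine ⟨Ioo (x / l (n1 + (j + 1))) (u / l (n1 + (j + 1))), ?_, isOpen_Ioo,
          ⟨ht1', ht2'.trans_le (min_le_right _ _)⟩⟩
        intro y hy
        refine ⟨n1 + (j + 1), by omega, hsub ⟨?_, ?_⟩⟩
        · exact ((div_lt_iff₀ hlj1).1 hy.1).le
        · exact (lt_div_iff₀ hlj1).1 hy.2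
    filter_upwards [hres] with t ht h0
    rcases ht with h | h
    · exact absurd h (not_lt.2 h0.le)
    · exact (interior_subset h : t ∈ S)
  have hall := eventually_countable_forall.2 key
  filter_upwards [hall] with t ht h0
  rw [frequently_atTop]
  intro N
  exact ht N h0

/-- all limit points -/
theorem generic_cluster {X : Type*} [TopologicalSpace X] [SecondCountableTopology X] (f : ℝ → X)
    (hf : ∀ᶠ x in atTop, ContinuousWithinAt f (Ici x) x) (l : ℕ → ℝ) (hpos : ∀ n, 0 < l n)
    (hlim : Tendsto l atTop atTop) (hrat : Tendsto (fun n => l (n + 1) / l n) atTop (𝓝 1)) :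
    ∀ᶠ t in residual ℝ, 0 < t → ∀ y : X, MapClusterPt y atTop (fun n => f (t * l n)) ↔
      MapClusterPt y atTop f := by
  have h : ∀ᶠ t in residual ℝ, ∀ b ∈ TopologicalSpace.countableBasis X, (∃ᶠ x in atTop, f x ∈ b) →
      0 < t → ∃ᶠ n in atTop, f (t * l n) ∈ b := by
    rw [eventually_countable_ball (TopologicalSpace.countable_countableBasis X)]
    intro b hb
    by_cases hfr : ∃ᶠ x in atTop, f x ∈ b
    · filter_upwards [generic_open f hf l hpos hlim hrat
        (TopologicalSpace.isOpen_of_mem_countableBasis hb) hfr] with t ht _ h0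
      exact ht h0
    · exact Eventually.of_forall fun t h' => absurd h' hfr
  filter_upwards [h] with t ht h0 y
  constructor
  · intro hy
    exact MapClusterPt.of_comp (hlim.const_mul_atTop h0) hy
  · intro hy
    rw [mapClusterPt_iff_frequently] at hy ⊢
    intro s hs
    obtain ⟨b, hb, hyb, hbs⟩ := (TopologicalSpace.isBasis_countableBasis X).mem_nhds_iff.1 hs
    exact (ht b hb (hy b ((TopologicalSpace.isOpen_of_mem_countableBasis hb).mem_nhds hyb)) h0).mono
      fun n hn => hbs hn

/-- upper limits -/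
theorem generic_limsup (f : ℝ → ℝ)
    (hf : ∀ᶠ x in atTop, ContinuousWithinAt f (Ici x) x) (l : ℕ → ℝ) (hpos : ∀ n, 0 < l n)
    (hlim : Tendsto l atTop atTop) (hrat : Tendsto (fun n => l (n + 1) / l n) atTop (𝓝 1)) :
    ∀ᶠ t in residual ℝ, 0 < t → limsup (fun n => ((f (t * l n) : ℝ) : EReal)) atTop =
      limsup (fun x => ((f x : ℝ) : EReal)) atTop := by
  have h : ∀ᶠ t in residual ℝ, ∀ q : ℚ, (∃ᶠ x in atTop, f x ∈ Ioi (q : ℝ)) →
      0 < t → ∃ᶠ n in atTop, f (t * l n) ∈ Ioi (q : ℝ) := by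
    rw [eventually_countable_forall]
    intro q
    by_cases hfr : ∃ᶠ x in atTop, f x ∈ Ioi (q : ℝ)
    · filter_upwards [generic_open f hf l hpos hlim hrat isOpen_Ioi hfr] with t ht _ h0
      exact ht h0
    · exact Eventually.of_forall fun t h' => absurd h' hfr
  filter_upwards [h] with t ht h0
  apply le_antisymm
  · have h1 : Tendsto (fun n => t * l n) atTop atTop := hlim.const_mul_atTop h0
    exact limsup_le_limsup_of_le (u := fun x => ((f x : ℝ) : EReal)) h1
  · refine le_of_forall_lt fun c hc => ?_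
    obtain ⟨q, hq1, hq2⟩ := EReal.lt_iff_exists_rat_btwn.1 hc
    have hfr : ∃ᶠ x in atTop, f x ∈ Ioi (q : ℝ) := by
      refine (frequently_lt_of_lt_limsup (by isBoundedDefault) hq2).mono fun x hx => ?_
      exact EReal.coe_lt_coe_iff.1 hx
    have h2 := ht q hfr h0
    refine hq1.trans_le (le_limsup_of_frequently_le (h2.mono fun n hn => ?_) (by isBoundedDefault))
    exact (EReal.coe_lt_coe_iff.2 hn).le

theorem generic_liminf (f : ℝ → ℝ)
    (hf : ∀ᶠ x in atTop, ContinuousWithinAt f (Ici x) x) (l : ℕ → ℝ) (hpos : ∀ n, 0 < l n)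
    (hlim : Tendsto l atTop atTop) (hrat : Tendsto (fun n => l (n + 1) / l n) atTop (𝓝 1)) :
    ∀ᶠ t in residual ℝ, 0 < t → liminf (fun n => ((f (t * l n) : ℝ) : EReal)) atTop =
      liminf (fun x => ((f x : ℝ) : EReal)) atTop := by
  have h := generic_limsup (fun x => -f x) (hf.mono fun x hx => hx.neg) l hpos hlim hrat
  filter_upwards [h] with t ht h0
  have h1 := ht h0
  have e1 : (fun n => ((-f (t * l n) : ℝ) : EReal)) = -(fun n => ((f (t * l n) : ℝ) : EReal)) := by
    funext n; simp
  have e2 : (fun x => ((-f x : ℝ) : EReal)) = -(fun x => ((f x : ℝ) : EReal)) := by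
    funext n; simp
  rw [e1, e2, EReal.limsup_neg, EReal.limsup_neg] at h1
  exact neg_injective h1

/-- summatory functions are right continuous -/
lemma floor_right {x : ℝ} (hx : 0 ≤ x) : ∀ᶠ y in 𝓝[≥] x, ⌊y⌋₊ = ⌊x⌋₊ := by
  have h : Ico x (⌊x⌋₊ + 1) ∈ 𝓝[≥] x := Ico_mem_nhdsGE (Nat.lt_floor_add_one x)
  filter_upwards [h] with y hy
  rw [Nat.floor_eq_iff (hx.trans hy.1)]
  exact ⟨(Nat.floor_le hx).trans hy.1, hy.2⟩

lemma sum_right (a : ℕ → ℝ) (h : ℝ) (hh : 0 < h) {x : ℝ} (hx : 0 ≤ x) :
    ContinuousWithinAt (fun x : ℝ => ∑ n ∈ Finset.Icc 1 ⌊x / h⌋₊, a n) (Ici x) x := by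
  have h1 : Tendsto (fun y : ℝ => y / h) (𝓝[≥] x) (𝓝[≥] (x / h)) := by
    rw [tendsto_nhdsWithin_iff]
    refine ⟨((continuous_id.div_const h).tendsto x).mono_left nhdsWithin_le_nhds, ?_⟩
    filter_upwards [self_mem_nhdsWithin] with y hy
    exact div_le_div_of_nonneg_right hy hh.le
  have h2 := h1.eventually (floor_right (x := x / h) (by positivity))
  refine (tendsto_const_nhds (x := ∑ n ∈ Finset.Icc 1 ⌊x / h⌋₊, a n)).congr' ?_
  filter_upwards [h2] with y hy
  rw [hy]

/-- Gonek's function -/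
noncomputable def F (x : ℝ) : ℝ := Real.sqrt x * Real.log (Real.log (Real.log x)) ^ ((5 : ℝ) / 4)

lemma F_cont : ∀ᶠ x in atTop, ContinuousAt F x ∧ F x ≠ 0 ∧ 0 ≤ x := by
  have h1 : Tendsto (fun x : ℝ => Real.log (Real.log x)) atTop atTop :=
    Real.tendsto_log_atTop.comp Real.tendsto_log_atTop
  filter_upwards [h1.eventually_gt_atTop 1, eventually_gt_atTop 1] with x hx hx1
  have hl : 0 < Real.log x := Real.log_pos hx1
  have hll : 0 < Real.log (Real.log x) := by linarith
  have hlll : 0 < Real.log (Real.log (Real.log x)) := Real.log_pos hx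
  refine ⟨?_, ?_, by linarith⟩
  · have c1 : ContinuousAt (fun x : ℝ => Real.log (Real.log (Real.log x))) x :=
      (((continuousAt_id.log (by simp; linarith)).log hl.ne').log hll.ne')
    exact (Real.continuous_sqrt.continuousAt).mul (c1.rpow_const (Or.inl hlll.ne'))
  · have : 0 < Real.sqrt x := Real.sqrt_pos.2 (by linarith)
    unfold F
    positivity

lemma quot_right (a : ℕ → ℝ) (h : ℝ) (hh : 0 < h) :
    ∀ᶠ x in atTop, ContinuousWithinAt (fun x : ℝ => (∑ n ∈ Finset.Icc 1 ⌊x / h⌋₊, a n) / F x) (Ici x) x := by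
  filter_upwards [F_cont] with x hx
  exact (sum_right a h hh hx.2.2).div hx.1.continuousWithinAt hx.2.1

end Pool.Agent.X108.GD
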