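import Pool.Agent.X108.GD.Gen

/-!
# Sequences with gaps `O(√x)`, for instance the perfect squares
-/

set_option autoImplicit false

namespace Pool.Agent.X108.GD

open Filter Topology

/-- summatory function -/
noncomputable def SS (a : ℕ → ℝ) (x : ℝ) : ℝ := ∑ n ∈ Finset.Icc 1 ⌊x⌋₊, a n

lemma SS_diff {a : ℕ → ℝ} (ha : ∀ n, |a n| ≤ 1) {y x : ℝ} (hy : 0 ≤ y) (hyx : y ≤ x) :
    |SS a x - SS a y| ≤ x - y + 1 := by
  unfold SS
  have hle : ⌊y⌋₊ ≤ ⌊x⌋₊ := Nat.floor_le_floor hyx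
  have e : ∑ n ∈ Finset.Icc 1 ⌊x⌋₊, a n - ∑ n ∈ Finset.Icc 1 ⌊y⌋₊, a n = ∑ n ∈ Finset.Ioc ⌊y⌋₊ ⌊x⌋₊, a n := by
    have h0 : ∀ m : ℕ, ∑ n ∈ Finset.Icc 1 m, a n = ∑ n ∈ Finset.Ioc 0 m, a n := fun m => rfl
    rw [h0, h0, sub_eq_iff_eq_add, add_comm, ← Finset.sum_Ioc_consecutive a (Nat.zero_le _) hle]
  rw [e]
  calc |∑ n ∈ Finset.Ioc ⌊y⌋₊ ⌊x⌋₊, a n| ≤ ∑ n ∈ Finset.Ioc ⌊y⌋₊ ⌊x⌋₊, |a n| := Finset.abs_sum_le_sum_abs _ _
    _ ≤ ∑ n ∈ Finset.Ioc ⌊y⌋₊ ⌊x⌋₊, 1 := Finset.sum_le_sum fun n _ => ha n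
    _ = (⌊x⌋₊ : ℝ) - ⌊y⌋₊ := by
        rw [Finset.sum_const, Nat.card_Ioc, nsmul_eq_mul, mul_one, Nat.cast_sub hle]
    _ ≤ x - y + 1 := by
        have h1 := Nat.floor_le (hy.trans hyx)
        have h2 := Nat.lt_floor_add_one y
        linarith

lemma F_mono : ∀ᶠ y in atTop, 0 < F y ∧ 0 ≤ y ∧ ∀ x, y ≤ x → F y ≤ F x := by
  have h1 : Tendsto (fun x : ℝ => Real.log (Real.log x)) atTop atTop :=
    Real.tendsto_log_atTop.comp Real.tendsto_log_atTop
  filter_upwards [h1.eventually_gt_atTop 1, eventually_gt_atTop 1] with y hy hy1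
  have hl : 0 < Real.log y := Real.log_pos hy1
  have hll : 0 < Real.log (Real.log y) := by linarith
  have hlll : 0 < Real.log (Real.log (Real.log y)) := Real.log_pos hy
  refine ⟨?_, by linarith, fun x hx => ?_⟩
  · have : 0 < Real.sqrt y := Real.sqrt_pos.2 (by linarith)
    unfold F
    positivity
  · unfold F
    have e1 : Real.log y ≤ Real.log x := Real.log_le_log (by linarith) hx
    have e2 : Real.log (Real.log y) ≤ Real.log (Real.log x) := Real.log_le_log hl e1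
    have e3 : Real.log (Real.log (Real.log y)) ≤ Real.log (Real.log (Real.log x)) := Real.log_le_log hll e2
    exact mul_le_mul (Real.sqrt_le_sqrt hx) (Real.rpow_le_rpow hlll.le e3 (by norm_num)) (by positivity)
      (Real.sqrt_nonneg _)

lemma gap_small (C : ℝ) : Tendsto (fun y => (C * Real.sqrt y + 1) / F y) atTop (𝓝 0) := by
  have h1 : Tendsto (fun x : ℝ => Real.log (Real.log (Real.log x))) atTop atTop :=
    Real.tendsto_log_atTop.comp (Real.tendsto_log_atTop.comp Real.tendsto_log_atTop)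
  have h2 : Tendsto (fun x : ℝ => Real.log (Real.log (Real.log x)) ^ ((5 : ℝ) / 4)) atTop atTop :=
    (tendsto_rpow_atTop (by norm_num)).comp h1
  have h3 : Tendsto (fun y => (|C| + 1) / Real.log (Real.log (Real.log y)) ^ ((5 : ℝ) / 4)) atTop (𝓝 0) :=
    h2.const_div_atTop _
  refine squeeze_zero_norm' ?_ h3
  filter_upwards [eventually_ge_atTop 1, h2.eventually_gt_atTop 0] with y hy hL
  have hs : 1 ≤ Real.sqrt y := Real.one_le_sqrt.2 hy
  have hs0 : 0 < Real.sqrt y := by linarith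
  unfold F
  rw [Real.norm_eq_abs, abs_div, abs_of_pos (mul_pos hs0 hL), div_le_div_iff₀ (mul_pos hs0 hL) hL]
  have h4 : |C * Real.sqrt y + 1| ≤ (|C| + 1) * Real.sqrt y := by
    refine (abs_add_le _ _).trans ?_
    rw [abs_mul, abs_of_pos hs0, abs_one]
    linarith
  calc |C * Real.sqrt y + 1| * Real.log (Real.log (Real.log y)) ^ ((5 : ℝ) / 4) ≤
      ((|C| + 1) * Real.sqrt y) * Real.log (Real.log (Real.log y)) ^ ((5 : ℝ) / 4) :=
        mul_le_mul_of_nonneg_right h4 hL.le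
    _ = _ := by ring

theorem freq {a : ℕ → ℝ} (ha : ∀ n, |a n| ≤ 1) {x : ℕ → ℝ} (hx : Tendsto x atTop atTop) {C : ℝ}
    (hC : ∀ n, x (n + 1) ≤ x n + C * Real.sqrt (x n)) {c c' : ℝ} (hc : 0 ≤ c) (hcc : c < c')
    (h : ∃ᶠ y in atTop, c' < SS a y / F y) : ∃ᶠ n in atTop, c < SS a (x n) / F (x n) := by
  rw [frequently_atTop]
  intro N
  have he := (F_mono.and ((gap_small C).eventually (gt_mem_nhds (sub_pos.2 hcc))))
  obtain ⟨N', hN'⟩ := eventually_atTop.1 (hx.eventually he)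
  obtain ⟨n1, hn1⟩ : ∃ n1, n1 = max N N' := ⟨_, rfl⟩
  obtain ⟨y, hy, hyx⟩ := (h.and_eventually (eventually_ge_atTop (x n1))).exists
  have hex : ∃ m : ℕ, y < x (n1 + m) := by
    obtain ⟨m, hm⟩ := (hx.eventually_gt_atTop y).exists_forall_of_atTop
    exact ⟨m, hm (n1 + m) (Nat.le_add_left _ _)⟩
  classical
  obtain ⟨m, hm⟩ : ∃ m, m = Nat.find hex := ⟨_, rfl⟩
  have hm1 : y < x (n1 + m) := by rw [hm]; exact Nat.find_spec hex
  have hm0 : m ≠ 0 := by
    rintro rfl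
    rw [add_zero] at hm1
    linarith
  obtain ⟨j, rfl⟩ : ∃ j, m = j + 1 := ⟨m - 1, by omega⟩
  have hj : x (n1 + j) ≤ y := by
    have := Nat.find_min hex (m := j) (by omega)
    exact not_lt.1 this
  obtain ⟨⟨hF, hx0, hmono⟩, hgap⟩ := hN' (n1 + j) (by omega)
  refine ⟨n1 + j, by omega, ?_⟩
  have hFy := hmono y hj
  have hFy0 : 0 < F y := hF.trans_le hFy
  have h1 := SS_diff ha hx0 hj
  have h2 := hC (n1 + j)
  have h3 : n1 + j + 1 = n1 + (j + 1) := by ring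
  rw [h3] at h2
  rw [lt_div_iff₀ hFy0] at hy
  rw [div_lt_iff₀ hF] at hgap
  rw [lt_div_iff₀ hF]
  have h4 : c' * F (x (n1 + j)) ≤ c' * F y := mul_le_mul_of_nonneg_left hFy (by linarith)
  have h5 := (abs_le.1 h1).2
  nlinarith

theorem limsup_iff {a : ℕ → ℝ} (ha : ∀ n, |a n| ≤ 1) {x : ℕ → ℝ} (hx : Tendsto x atTop atTop) {C : ℝ}
    (hC : ∀ n, x (n + 1) ≤ x n + C * Real.sqrt (x n)) {B : ℝ} (hB : 0 < B) :
    limsup (fun y : ℝ => ((SS a y / F y : ℝ) : EReal)) atTop = ((B : ℝ) : EReal) ↔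
      limsup (fun n : ℕ => ((SS a (x n) / F (x n) : ℝ) : EReal)) atTop = ((B : ℝ) : EReal) := by
  have hle : limsup (fun n : ℕ => ((SS a (x n) / F (x n) : ℝ) : EReal)) atTop ≤
      limsup (fun y : ℝ => ((SS a y / F y : ℝ) : EReal)) atTop :=
    limsup_le_limsup_of_le (u := fun y : ℝ => ((SS a y / F y : ℝ) : EReal)) hx
  have hge : (0 : EReal) < limsup (fun y : ℝ => ((SS a y / F y : ℝ) : EReal)) atTop →
      limsup (fun y : ℝ => ((SS a y / F y : ℝ) : EReal)) atTop ≤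
      limsup (fun n : ℕ => ((SS a (x n) / F (x n) : ℝ) : EReal)) atTop := by
    intro hpos
    refine le_of_forall_lt fun d hd => ?_
    have hmax : max d 0 < limsup (fun y : ℝ => ((SS a y / F y : ℝ) : EReal)) atTop := max_lt hd hpos
    obtain ⟨q, hq1, hq2⟩ := EReal.lt_iff_exists_rat_btwn.1 hmax
    obtain ⟨r, hr1, hr2⟩ := EReal.lt_iff_exists_rat_btwn.1 hq2
    have hfr : ∃ᶠ y in atTop, (r : ℝ) < SS a y / F y := by
      refine (frequently_lt_of_lt_limsup (by isBoundedDefault) hr2).mono fun y hy => ?_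
      exact EReal.coe_lt_coe_iff.1 hy
    have hq0 : (0 : ℝ) ≤ q := by
      have : (0 : EReal) < ((q : ℝ) : EReal) := (le_max_right d 0).trans_lt hq1
      exact (EReal.coe_lt_coe_iff.1 (by simpa using this)).le
    have h2 := freq ha hx hC hq0 (EReal.coe_lt_coe_iff.1 hr1) hfr
    refine (le_max_left d 0).trans_lt (hq1.trans_le (le_limsup_of_frequently_le
      (h2.mono fun n hn => ?_) (by isBoundedDefault)))
    exact (EReal.coe_lt_coe_iff.2 hn).le
  have hB' : (0 : EReal) < ((B : ℝ) : EReal) := by exact_mod_cast hB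
  constructor
  · intro h
    exact le_antisymm (hle.trans h.le) (h ▸ hge (h ▸ hB'))
  · intro h
    have hpos : (0 : EReal) < limsup (fun y : ℝ => ((SS a y / F y : ℝ) : EReal)) atTop :=
      hB'.trans_le (h ▸ hle)
    exact (le_antisymm hle (hge hpos)).symm.trans h

theorem liminf_iff {a : ℕ → ℝ} (ha : ∀ n, |a n| ≤ 1) {x : ℕ → ℝ} (hx : Tendsto x atTop atTop) {C : ℝ}
    (hC : ∀ n, x (n + 1) ≤ x n + C * Real.sqrt (x n)) {B : ℝ} (hB : 0 < B) :
    liminf (fun y : ℝ => ((SS a y / F y : ℝ) : EReal)) atTop = ((-B : ℝ) : EReal) ↔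
      liminf (fun n : ℕ => ((SS a (x n) / F (x n) : ℝ) : EReal)) atTop = ((-B : ℝ) : EReal) := by
  have h := limsup_iff (a := fun n => -a n) (fun n => by rw [abs_neg]; exact ha n) hx hC hB
  have e0 : ∀ y, SS (fun n => -a n) y / F y = -(SS a y / F y) := by
    intro y
    unfold SS
    rw [Finset.sum_neg_distrib, neg_div]
  have e1 : (fun y : ℝ => ((SS (fun n => -a n) y / F y : ℝ) : EReal)) =
      -(fun y : ℝ => ((SS a y / F y : ℝ) : EReal)) := by
    funext y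
    rw [e0]
    simp
  have e2 : (fun n : ℕ => ((SS (fun n => -a n) (x n) / F (x n) : ℝ) : EReal)) =
      -(fun n : ℕ => ((SS a (x n) / F (x n) : ℝ) : EReal)) := by
    funext n
    rw [e0]
    simp
  rw [e1, e2, EReal.limsup_neg, EReal.limsup_neg] at h
  have e3 : ∀ z : EReal, z = ((-B : ℝ) : EReal) ↔ -z = ((B : ℝ) : EReal) := by
    intro z
    rw [EReal.coe_neg, neg_eq_iff_eq_neg]
  rw [e3, e3]
  exact h

end Pool.Agent.X108.GD
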